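import Pool.Agent.W355.FR.Stm

/-!
# Part MSQ of project FR: function field Szpiro inequality

Direct proof: with `δ = 3 A' B - 2 A B'` and `D = 4 A³ + 27 B²` one has
`27 B δ = 3 A' D - A D'` and `4 A² δ = B D' - 2 B' D`, hence `D ∣ δ * ∏ P ^ w P`.
-/

set_option autoImplicit false

namespace Pool.Agent.W389.FR.MSQ

open Polynomial Pool.Agent.W355.FR

theorem dv {P F : ℚ[X]} {e : ℕ} (h : P ^ (e + 1) ∣ F) : P ^ e ∣ derivative F := by
  obtain ⟨Q, rfl⟩ := h
  rw [derivative_mul, derivative_pow_succ]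
  refine dvd_add ?_ ?_
  · exact Dvd.intro_left _ (by ring_nf : (C ((e : ℚ) + 1) * derivative P * Q) * P ^ e = _)
  · exact Dvd.intro_left _ (by ring_nf : (P * derivative Q) * P ^ e = _)

theorem derD (A B : ℚ[X]) : derivative (4 * A ^ 3 + 27 * B ^ 2) =
    12 * A ^ 2 * derivative A + 54 * B * derivative B := by
  have h4 : (4 : ℚ[X]) = C 4 := rfl
  have h27 : (27 : ℚ[X]) = C 27 := rfl
  rw [derivative_add, h4, h27, derivative_C_mul, derivative_C_mul, derivative_pow, derivative_pow,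
    ← h4, ← h27]
  have h3 : (C ((3 : ℕ) : ℚ) : ℚ[X]) = 3 := rfl
  have h2 : (C ((2 : ℕ) : ℚ) : ℚ[X]) = 2 := rfl
  rw [h3, h2]
  norm_num
  ring

theorem id1 (A B : ℚ[X]) : B * (27 * (3 * derivative A * B - 2 * A * derivative B)) =
    3 * derivative A * (4 * A ^ 3 + 27 * B ^ 2) - A * derivative (4 * A ^ 3 + 27 * B ^ 2) := by
  rw [derD]
  ring

theorem id2 (A B : ℚ[X]) : A ^ 2 * (4 * (3 * derivative A * B - 2 * A * derivative B)) =
    B * derivative (4 * A ^ 3 + 27 * B ^ 2) - 2 * derivative B * (4 * A ^ 3 + 27 * B ^ 2) := by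
  rw [derD]
  ring

theorem u4 : IsUnit (4 : ℚ[X]) := by
  have h : (4 : ℚ[X]) = C 4 := rfl
  rw [h, isUnit_C]
  exact isUnit_iff_ne_zero.2 (by norm_num)

theorem u27 : IsUnit (27 : ℚ[X]) := by
  have h : (27 : ℚ[X]) = C 27 := rfl
  rw [h, isUnit_C]
  exact isUnit_iff_ne_zero.2 (by norm_num)

theorem loc1 (A B P : ℚ[X]) (hP : Irreducible P) (hPA : ¬ P ∣ A) (e : ℕ)
    (he : P ^ e ∣ 4 * A ^ 3 + 27 * B ^ 2) :
    P ^ e ∣ (3 * derivative A * B - 2 * A * derivative B) * P ^ 1 := by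
  rcases e with _ | n
  · rw [pow_zero]
    exact one_dvd _
  · have h1 : P ^ n ∣ derivative (4 * A ^ 3 + 27 * B ^ 2) := dv he
    have h2 : P ^ n ∣ 4 * A ^ 3 + 27 * B ^ 2 := (pow_dvd_pow P (Nat.le_succ n)).trans he
    have h3 : P ^ n ∣ A ^ 2 * (4 * (3 * derivative A * B - 2 * A * derivative B)) := by
      rw [id2]
      exact dvd_sub (Dvd.dvd.mul_left h1 _) (Dvd.dvd.mul_left h2 _)
    have h4 : ¬ P ∣ A ^ 2 := fun h => hPA (hP.prime.dvd_of_dvd_pow h)
    have h5 := hP.prime.pow_dvd_of_dvd_mul_left n h4 h3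
    rw [u4.dvd_mul_left] at h5
    rw [pow_succ, pow_one]
    exact mul_dvd_mul h5 dvd_rfl

theorem loc2 (A B P : ℚ[X]) (hP : Irreducible P) (hA : A ≠ 0) (hB : B ≠ 0) (hPA : P ∣ A)
    (hm : P ^ 4 ∣ A → ¬ P ^ 6 ∣ B) (e : ℕ) (he : P ^ e ∣ 4 * A ^ 3 + 27 * B ^ 2) :
    P ^ e ∣ (3 * derivative A * B - 2 * A * derivative B) * P ^ 2 := by
  rcases e with _ | n
  · rw [pow_zero]
    exact one_dvd _
  have hP0 : P ≠ 0 := hP.ne_zero
  have h1 : P ^ n ∣ derivative (4 * A ^ 3 + 27 * B ^ 2) := dv he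
  obtain ⟨al, A1, hA1, hAe⟩ := WfDvdMonoid.max_power_factor hA hP
  obtain ⟨be, B1, hB1, hBe⟩ := WfDvdMonoid.max_power_factor hB hP
  have hal : al ≠ 0 := by
    rintro rfl
    rw [pow_zero, one_mul] at hAe
    exact hA1 (hAe ▸ hPA)
  obtain ⟨a, rfl⟩ := Nat.exists_eq_succ_of_ne_zero hal
  have hPa : P ^ (a + 1) ∣ A := ⟨A1, hAe⟩
  have hPb : P ^ be ∣ B := ⟨B1, hBe⟩
  set dl := 3 * derivative A * B - 2 * A * derivative B with hdl
  by_cases c1 : be ≤ a + 2
  · have h2 : P ^ (a + (n + 1)) ∣ B * (27 * dl) := by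
      rw [hdl, id1]
      refine dvd_sub ?_ ?_
      · rw [pow_add]
        exact mul_dvd_mul (Dvd.dvd.mul_left (dv hPa) _) he
      · have : a + (n + 1) = (a + 1) + n := by ring
        rw [this, pow_add]
        exact mul_dvd_mul hPa h1
    have h3 : P ^ a * P ^ (n + 1) ∣ P ^ a * (B1 * (27 * (dl * P ^ 2))) := by
      rw [← pow_add]
      refine h2.trans ?_
      have h4 : P ^ a * (B1 * (27 * (dl * P ^ 2))) = P ^ (a + 2) * (B1 * (27 * dl)) := by ring
      rw [h4]
      conv_lhs => rw [hBe]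
      rw [mul_assoc]
      exact mul_dvd_mul (pow_dvd_pow P c1) dvd_rfl
    have h5 := (mul_dvd_mul_iff_left (pow_ne_zero a hP0)).1 h3
    have h6 := hP.prime.pow_dvd_of_dvd_mul_left (n + 1) hB1 h5
    rwa [u27.dvd_mul_left] at h6
  · by_cases c2 : 2 * a + 1 ≤ be
    · obtain ⟨b, rfl⟩ : ∃ b, be = b + 1 := ⟨be - 1, by omega⟩
      have h2 : P ^ (b + (n + 1)) ∣ A ^ 2 * (4 * dl) := by
        rw [hdl, id2]
        refine dvd_sub ?_ ?_
        · have : b + (n + 1) = (b + 1) + n := by ring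
          rw [this, pow_add]
          exact mul_dvd_mul hPb h1
        · rw [pow_add]
          exact mul_dvd_mul (Dvd.dvd.mul_left (dv hPb) _) he
      have h3 : P ^ (2 * a) * P ^ (n + 1) ∣ P ^ (2 * a) * (A1 ^ 2 * (4 * (dl * P ^ 2))) := by
        rw [← pow_add]
        refine (pow_dvd_pow P (by omega : 2 * a + (n + 1) ≤ b + (n + 1))).trans (h2.trans ?_)
        have h4 : P ^ (2 * a) * (A1 ^ 2 * (4 * (dl * P ^ 2))) =
            (P ^ (a + 1) * A1) ^ 2 * (4 * dl) := by ring
        rw [h4, ← hAe]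
      have h5 := (mul_dvd_mul_iff_left (pow_ne_zero (2 * a) hP0)).1 h3
      have hA2 : ¬ P ∣ A1 ^ 2 := fun h => hA1 (hP.prime.dvd_of_dvd_pow h)
      have h6 := hP.prime.pow_dvd_of_dvd_mul_left (n + 1) hA2 h5
      rwa [u4.dvd_mul_left] at h6
    · exfalso
      refine hm ((pow_dvd_pow P (by omega)).trans hPa) ((pow_dvd_pow P (by omega)).trans hPb)

theorem main : P_MSQ := by
  classical
  intro k A B hA4 hB6 hD hD0 hmin hdl0 T hT1 hT2 hT3 w hw1 hw2
  have hA0 : A ≠ 0 := by
    rintro rfl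
    apply hdl0
    simp
  have hB0 : B ≠ 0 := by
    rintro rfl
    apply hdl0
    simp
  have hk : 1 ≤ k := by
    by_contra hk
    have hk0 : k = 0 := by omega
    subst hk0
    apply hdl0
    rw [eq_C_of_natDegree_le_zero (by omega : A.natDegree ≤ 0),
      eq_C_of_natDegree_le_zero (by omega : B.natDegree ≤ 0)]
    simp
  set D := 4 * A ^ 3 + 27 * B ^ 2 with hDdef
  set dl := 3 * derivative A * B - 2 * A * derivative B with hdl
  have hloc : ∀ P ∈ T, ∀ e, P ^ e ∣ D → P ^ e ∣ dl * P ^ w P := by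
    intro P hP e he
    by_cases hPA : P ∣ A
    · rw [hw1 P hP hPA]
      exact loc2 A B P (hT1 P hP).1 hA0 hB0 hPA (hmin P (hT1 P hP).1) e he
    · rw [hw2 P hP hPA]
      exact loc1 A B P (hT1 P hP).1 hPA e he
  have hdvd : D ∣ dl * ∏ P ∈ T, P ^ w P := by
    have h1 : Associated (UniqueFactorizationMonoid.normalizedFactors D).prod D :=
      UniqueFactorizationMonoid.prod_normalizedFactors hD0
    have hmon : ∀ P ∈ UniqueFactorizationMonoid.normalizedFactors D, Irreducible P ∧ P.Monic := by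
      intro P hP
      have h2 := UniqueFactorizationMonoid.irreducible_of_normalized_factor P hP
      exact ⟨h2, (normalize_eq_self_iff_monic h2.ne_zero).1
        (UniqueFactorizationMonoid.normalize_normalized_factor P hP)⟩
    rw [← h1.dvd_iff_dvd_left, Finset.prod_multiset_count]
    apply Finset.prod_dvd_of_coprime
    · intro P hP Q hQ hne
      have hP' := hmon P (Multiset.mem_toFinset.1 hP)
      have hQ' := hmon Q (Multiset.mem_toFinset.1 hQ)
      have h3 : IsCoprime P Q := by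
        rw [hP'.1.coprime_iff_not_dvd]
        intro h
        apply hne
        exact eq_of_monic_of_associated hP'.2 hQ'.2 (hP'.1.associated_of_dvd hQ'.1 h)
      exact h3.pow
    · intro P hP
      have hPn := Multiset.mem_toFinset.1 hP
      have hPm := hmon P hPn
      have hPT := hT2 P hPm.1 hPm.2 (UniqueFactorizationMonoid.dvd_of_mem_normalizedFactors hPn)
      have hpow : P ^ (UniqueFactorizationMonoid.normalizedFactors D).count P ∣ D := by
        rw [← h1.dvd_iff_dvd_right, Finset.prod_multiset_count]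
        exact Finset.dvd_prod_of_mem
          (fun P => P ^ (UniqueFactorizationMonoid.normalizedFactors D).count P) hP
      exact (hloc P hPT _ hpow).trans
        (mul_dvd_mul_left _ (Finset.dvd_prod_of_mem (fun P => P ^ w P) hPT))
  have hN0 : ∏ P ∈ T, P ^ w P ≠ 0 := by
    rw [Finset.prod_ne_zero_iff]
    intro P hP
    exact pow_ne_zero _ (hT1 P hP).1.ne_zero
  have hdeg := natDegree_le_of_dvd hdvd (mul_ne_zero hdl0 hN0)
  rw [hD, natDegree_mul hdl0 hN0, natDegree_prod _ _ (fun P hP =>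
    pow_ne_zero _ (hT1 P hP).1.ne_zero)] at hdeg
  simp only [natDegree_pow] at hdeg
  have hA' : (derivative A).natDegree ≤ 4 * k - 1 :=
    (natDegree_derivative_le A).trans (by omega)
  have hB' : (derivative B).natDegree ≤ 6 * k - 1 :=
    (natDegree_derivative_le B).trans (by omega)
  have hdd : dl.natDegree ≤ 10 * k - 1 := by
    refine (natDegree_sub_le _ _).trans (max_le ?_ ?_)
    · refine natDegree_mul_le.trans ?_
      have h3 : (3 : ℚ[X]).natDegree = 0 := natDegree_ofNat 3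
      have h4 : (3 * derivative A).natDegree ≤ 4 * k - 1 :=
        natDegree_mul_le.trans (by rw [h3]; omega)
      omega
    · refine natDegree_mul_le.trans ?_
      have h3 : (2 : ℚ[X]).natDegree = 0 := natDegree_ofNat 2
      have h4 : (2 * A).natDegree ≤ 4 * k :=
        natDegree_mul_le.trans (by rw [h3]; omega)
      omega
  omega

end Pool.Agent.W389.FR.MSQ
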